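import Pool.Agent.Helper83.RB.St

set_option autoImplicit false

namespace Pool.Agent.Helper9.RB

open Pool.Agent.Helper83.RB

/-- The value of a concatenation. -/
theorem ev_append {r : ℕ} {B : Type} [Monoid B] (y : Fin r → B) (u v : List (Fin r)) :
    ev y (u ++ v) = ev y u * ev y v := by
  simp [ev, List.map_append, List.prod_append]

/-- A non-empty set of fewer than `d` letters is contained in the range of a map from
`Fin (d - 1)`. -/
theorem exists_range {m d : ℕ} (s : Finset (Fin m)) (hs : s.card < d) (x₀ : Fin m) :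
    ∃ e : Fin (d - 1) → Fin m, ∀ x ∈ s, ∃ j, e j = x := by
  classical
  have hcard : s.card ≤ d - 1 := by omega
  let eq := s.equivFin
  refine ⟨fun j => if h : (j : ℕ) < s.card then (eq.symm ⟨j, h⟩ : Fin m) else x₀, ?_⟩
  intro x hx
  refine ⟨⟨(eq ⟨x, hx⟩ : ℕ), lt_of_lt_of_le (eq ⟨x, hx⟩).2 hcard⟩, ?_⟩
  have h1 : ((eq ⟨x, hx⟩ : Fin s.card) : ℕ) < s.card := (eq ⟨x, hx⟩).2
  simp only [h1, dif_pos]
  simp

/-- PIC. -/
theorem hPIC (hDEC : StDEC) (hRWR : StRWR) (hSPN : StSPN) (hUNI : StUNI) (hJFI : StJFI) :
    StPIC := by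
  classical
  intro p d _
  rcases Nat.eq_zero_or_pos d with hd | hd
  · subst hd
    refine ⟨0, ?_⟩
    intro m N _ hN hf B _ _ hPI φ
    obtain ⟨a, ha, hx⟩ := hPI
    have h1 : a 1 ≠ 0 := by
      intro h
      apply ha
      funext σ
      have : σ = 1 := Subsingleton.elim _ _
      rw [this, h]; rfl
    have h2 := hx (fun i => i.elim0)
    have h3 : a 1 • (1 : B) = 0 := by
      have : (Finset.univ : Finset (Equiv.Perm (Fin 0))) = {1} := by
        ext σ
        simp [Subsingleton.elim σ 1]
      rw [this, Finset.sum_singleton] at h2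
      simpa using h2
    have h4 : (1 : B) = 0 := by
      have := congrArg (fun z => (a 1)⁻¹ • z) h3
      simpa [smul_smul, inv_mul_cancel₀ h1] using this
    intro g _
    rw [MonoidHom.mem_ker]
    apply Units.ext
    have h5 : ∀ z : B, z = 0 := fun z => by
      rw [← mul_one z, h4, mul_zero]
    rw [h5 ((φ g : Bˣ) : B), h5 (((1 : Bˣ) : Bˣ) : B)]
  · obtain ⟨δ, hδ⟩ := hSPN p (d - 1) d hd
    refine ⟨d * (δ + 1), ?_⟩
    intro m N _ hN hf B _ _ hPI φ
    obtain ⟨f, hfgen⟩ := hf
    have hp1 : 1 ≤ p := (Fact.out : p.Prime).one_lt.le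
    -- step 1
    have h1 : ∀ b : List (Fin m), b.length = δ + 1 → b.toFinset.card < d →
        ev (fun i => ((φ (f i) : Bˣ) : B) - 1) b = 0 := by
      intro b hb hcard
      have hne : b ≠ [] := by
        intro h
        rw [h] at hb
        simp at hb
      obtain ⟨x₀, hx₀⟩ := List.exists_mem_of_ne_nil b hne
      obtain ⟨e, he⟩ := exists_range b.toFinset hcard x₀
      let h : Fin (d - 1) → Bˣ := fun j => φ (f (e j))
      have hsub : Subgroup.closure (Set.range h) ≤ φ.range := by
        rw [Subgroup.closure_le]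
        rintro _ ⟨j, rfl⟩
        exact ⟨f (e j), rfl⟩
      have hpow : ∀ g ∈ Subgroup.closure (Set.range h), g ^ p = 1 := by
        intro g hg
        obtain ⟨n, rfl⟩ := hsub hg
        rw [← map_pow, hN, map_one]
      obtain ⟨S, hS, hspan⟩ := hδ B hPI h hpow
      have key := hUNI p δ B (Subgroup.closure (Set.range h)) hpow S hS hspan
        (b.map fun i => φ (f i)) (by
          intro g hg
          rw [List.mem_map] at hg
          obtain ⟨x, hx, rfl⟩ := hg
          obtain ⟨j, hj⟩ := he x (List.mem_toFinset.mpr hx)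
          apply Subgroup.subset_closure
          exact ⟨j, by simp [h, hj]⟩) (by
          rw [List.length_map]
          omega)
      have hco : ∀ l : List Bˣ, (do let a ← l; pure (a : B)) =
          List.map (Units.val : Bˣ → B) l := by
        intro l
        simp only [List.bind_eq_flatMap, List.pure_def]
        exact List.map_eq_flatMap.symm
      rw [hco, List.map_map, List.map_map] at key
      exact key
    -- step 2
    have h2 : ∀ w : List (Fin m), ((d - 1) * m + 1) * (δ + 1) ≤ w.length →
        ev (fun i => ((φ (f i) : Bˣ) : B) - 1) w = 0 := by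
      intro w hw
      have := hRWR p d m w.length B hPI (fun i => ((φ (f i) : Bˣ) : B) - 1) ⊥ (by
        intro w' hw'
        rcases hDEC m d (δ + 1) hd w' (by omega) with h | ⟨l, b, t, hlbt, hb, hcard⟩
        · exact Or.inr h
        · left
          rw [Submodule.mem_bot, hlbt, ev_append, ev_append, h1 b hb hcard]
          simp) w rfl
      rwa [Submodule.mem_bot] at this
    have h3 := hJFI p m (((d - 1) * m + 1) * (δ + 1)) N hp1 hN f hfgen B φ h2
    refine le_trans ?_ h3
    apply Subgroup.lowerCentralSeries_antitone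
    have : (d - 1) * m + 1 ≤ d * (m + 1) := by
      obtain ⟨d', rfl⟩ : ∃ d', d = d' + 1 := ⟨d - 1, by omega⟩
      simp only [Nat.add_sub_cancel]
      nlinarith
    calc ((d - 1) * m + 1) * (δ + 1) ≤ (d * (m + 1)) * (δ + 1) := Nat.mul_le_mul_right _ this
      _ = d * (δ + 1) * (m + 1) := by ring

end Pool.Agent.Helper9.RB
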